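import Pool.Graph.R_pool_sql_team_seeded_35f281b4.K7.H72.MT.N
import Pool.Graph.R_pool_sql_team_seeded_35f281b4.K7.H91.SQ.Fin1

set_option autoImplicit false

/-!
# The sections of `P ^ t` modulo `2 ^ k`, counted together
-/

namespace Pool.Agent.H89.MT2

open PowerSeries Finset Pool.Agent.K7.H72.MT

/-- the orders of the sections of `P ^ t₁` modulo `2 ^ k` are small in the mean -/
theorem orders (t₁ k : ℕ) (h1 : t₁ % 2 = 1) (ht : t₁ < 2 ^ k) : ∃ v : ℕ → ℕ,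
    (∀ r < 2 ^ k, (∀ i < v r, coeff i (node P2 k r t₁ 1) = 0) ∧
      coeff 0 (unsh (v r) (node P2 k r t₁ 1)) = 1) ∧
    3 * ∑ r ∈ range (2 ^ k), (r + 2 ^ k * v r) ≤ 8 ^ k := by
  obtain ⟨n, g1, g2, g3⟩ := Pool.Agent.K7.H91.SQ.least_exists t₁ (Nat.odd_iff.2 h1) k
  have g4 := Pool.Agent.K7.H91.SQ.sum_least t₁ (Nat.odd_iff.2 h1) k n g1 g2 g3
  have g5 := Pool.Agent.K7.H91.SQ.dl_val k
  have hP : Pool.Agent.TH693.PP.P = P2 := rfl
  rw [hP] at g2 g3
  have hpos : 0 < 2 ^ k := by positivity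
  have hn : ∀ r < 2 ^ k, r + 2 ^ k * (n r / 2 ^ k) = n r := by
    intro r hr
    have e1 : n r % 2 ^ k = r := by
      have := g1 r hr
      rw [Nat.ModEq, Nat.mod_eq_of_lt hr] at this
      exact this
    conv_lhs => rw [← e1]
    have e2 := Nat.mod_add_div (n r) (2 ^ k)
    rw [e1] at e2 ⊢
    exact e2
  have hco : ∀ r < 2 ^ k, ∀ a, coeff (r + 2 ^ k * a) (P2 ^ t₁) = coeff a (node P2 k r t₁ 1) := by
    intro r hr a
    have := coeff_node P2 k r t₁ a 1 hr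
    rw [one_mul, Nat.div_eq_of_lt ht, pow_zero, mul_one] at this
    exact this
  refine ⟨fun r => n r / 2 ^ k, fun r hr => ⟨fun i hi => ?_, ?_⟩, ?_⟩
  · rw [← hco r hr]
    apply g3 r hr
    · rw [← hn r hr]
      have : 2 ^ k * i < 2 ^ k * (n r / 2 ^ k) := (Nat.mul_lt_mul_left hpos).2 hi
      omega
    · rw [Nat.ModEq, Nat.add_mul_mod_self_left]
  · rw [unsh, coeff_mk, zero_add, ← hco r hr, hn r hr]
    exact eq_one_of_ne (g2 r hr)
  · have e1 : ∑ r ∈ range (2 ^ k), (r + 2 ^ k * (n r / 2 ^ k)) = ∑ r ∈ range (2 ^ k), n r :=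
      sum_congr rfl fun r hr => hn r (mem_range.1 hr)
    simp only
    rw [e1]
    have e2 : 24 * (∑ r ∈ range (2 ^ k), n r) ≤ 2 ^ k * (8 * 4 ^ k) := by
      calc 24 * (∑ r ∈ range (2 ^ k), n r) ≤
          3 * (2 ^ k * Pool.Agent.K7.H91.SQ.dl Pool.Agent.K7.H91.SQ.qq (k + 3)) := g4
        _ = 2 ^ k * (3 * Pool.Agent.K7.H91.SQ.dl Pool.Agent.K7.H91.SQ.qq (k + 3)) := by ring
        _ ≤ 2 ^ k * (8 * 4 ^ k) := by
            apply Nat.mul_le_mul_left
            have : 1 ≤ 2 ^ k := hpos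
            omega
    have e3 : 2 ^ k * (8 * 4 ^ k) = 8 * 8 ^ k := by
      have : (8 : ℕ) ^ k = 2 ^ k * 4 ^ k := by
        rw [← mul_pow]
        norm_num
      rw [this]
      ring
    omega

/-- the residue classes modulo `2 ^ k` in the class of `ρ` modulo `2 ^ b` whose section has a small
order -/
theorem good_card (k b ρ : ℕ) (hb : b ≤ k) (v : ℕ → ℕ)
    (hv : 3 * ∑ r ∈ range (2 ^ k), (r + 2 ^ k * v r) ≤ 8 ^ k) :
    2 ^ k ≤ 2 ^ (b + 1) * #{r ∈ range (2 ^ k) | r % 2 ^ b = ρ % 2 ^ b ∧ v r < 2 ^ (k + b)} := by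
  classical
  set G := {r ∈ range (2 ^ k) | r % 2 ^ b = ρ % 2 ^ b ∧ v r < 2 ^ (k + b)} with hG
  set Bd := {r ∈ range (2 ^ k) | 2 ^ (k + b) ≤ v r} with hBd
  obtain ⟨c, hc⟩ : ∃ c, k = b + c := ⟨k - b, by omega⟩
  have hcls : #{r ∈ range (2 ^ k) | r % 2 ^ b = ρ % 2 ^ b} = 2 ^ c := by
    have h0 : 0 < 2 ^ b := by positivity
    have : {r ∈ range (2 ^ k) | r % 2 ^ b = ρ % 2 ^ b} =
        (range (2 ^ c)).image fun i => ρ % 2 ^ b + 2 ^ b * i := by
      ext r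
      rw [mem_filter, mem_image, mem_range]
      constructor
      · rintro ⟨h1, h2⟩
        refine ⟨r / 2 ^ b, ?_, ?_⟩
        · rw [mem_range]
          rw [hc, pow_add] at h1
          exact Nat.div_lt_of_lt_mul h1
        · rw [← h2]
          exact Nat.mod_add_div r (2 ^ b)
      · rintro ⟨i, h1, rfl⟩
        rw [mem_range] at h1
        have h2 := Nat.mod_lt ρ h0
        refine ⟨?_, ?_⟩
        · rw [hc, pow_add]
          have h3 : 2 ^ b * (i + 1) ≤ 2 ^ b * 2 ^ c := Nat.mul_le_mul_left _ h1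
          rw [mul_add, mul_one] at h3
          omega
        · rw [Nat.add_mul_mod_self_left, Nat.mod_mod]
    rw [this, card_image_of_injective, card_range]
    intro i j hij
    simp only [Nat.add_left_cancel_iff] at hij
    exact Nat.eq_of_mul_eq_mul_left h0 hij
  have hle : #{r ∈ range (2 ^ k) | r % 2 ^ b = ρ % 2 ^ b} ≤ #G + #Bd := by
    refine (card_le_card ?_).trans (card_union_le G Bd)
    intro r hr
    rw [mem_filter] at hr
    rw [mem_union, hG, hBd, mem_filter, mem_filter]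
    rcases Nat.lt_or_ge (v r) (2 ^ (k + b)) with h | h
    · exact Or.inl ⟨hr.1, hr.2, h⟩
    · exact Or.inr ⟨hr.1, h⟩
  have hbd : 3 * #Bd ≤ 2 ^ c := by
    have h1 : #Bd * (2 ^ k * 2 ^ (k + b)) ≤ ∑ r ∈ range (2 ^ k), (r + 2 ^ k * v r) := by
      calc #Bd * (2 ^ k * 2 ^ (k + b)) = ∑ r ∈ Bd, 2 ^ k * 2 ^ (k + b) := by
            rw [sum_const, smul_eq_mul]
        _ ≤ ∑ r ∈ Bd, (r + 2 ^ k * v r) := by
            refine sum_le_sum fun r hr => ?_
            rw [hBd, mem_filter] at hr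
            have := Nat.mul_le_mul_left (2 ^ k) hr.2
            omega
        _ ≤ _ := sum_le_sum_of_subset (filter_subset _ _)
    have h2 : (8 : ℕ) ^ k = 2 ^ c * (2 ^ k * 2 ^ (k + b)) := by
      rw [show (8 : ℕ) = 2 ^ 3 by norm_num, ← pow_mul, ← pow_add, ← pow_add]
      congr 1
      omega
    have h3 : 3 * #Bd * (2 ^ k * 2 ^ (k + b)) ≤ 2 ^ c * (2 ^ k * 2 ^ (k + b)) := by
      rw [← h2, mul_assoc]
      exact (Nat.mul_le_mul_left 3 h1).trans hv
    exact Nat.le_of_mul_le_mul_right h3 (by positivity)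
  rw [hcls] at hle
  have h4 : 2 ^ k = 2 ^ b * 2 ^ c := by rw [hc, pow_add]
  rw [h4, pow_succ, mul_assoc]
  apply Nat.mul_le_mul_left
  omega

/-- the number of the `n ≤ x` in the class `ρ` modulo `M` with `coeff n (P ^ t) ≠ w n` -/
noncomputable def cnt1 (M ρ : ℕ) (w : ℕ → ZMod 2) (t x : ℕ) : ℕ :=
  #{n ∈ range (x + 1) | n % M = ρ % M ∧ coeff n (P2 ^ t) ≠ w n}

theorem cnt1_mono (M ρ : ℕ) (w : ℕ → ZMod 2) (t : ℕ) {x y : ℕ} (h : x ≤ y) :
    cnt1 M ρ w t x ≤ cnt1 M ρ w t y := by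
  unfold cnt1
  refine card_le_card fun n hn => ?_
  rw [mem_filter, mem_range] at hn ⊢
  exact ⟨by omega, hn.2⟩

/-- the element of the engine that belongs to the class `r` modulo `2 ^ k` -/
noncomputable def el (k m ρ : ℕ) (w : ℕ → ZMod 2) (v : ℕ → ℕ) (t₁ r : ℕ) : El :=
  (unsh (v r) (node P2 k r t₁ 1), fun a => w (r + 2 ^ k * (a + v r)),
    fun a => (r + 2 ^ k * (a + v r)) % m = ρ % m)

theorem sum_N1_le {M m b ρ k : ℕ} (hM : M = 2 ^ b * m) (hm : Odd m) (hb : b ≤ k)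
    (w : ℕ → ZMod 2) (v : ℕ → ℕ) (t x Y : ℕ)
    (hv : ∀ r < 2 ^ k, ∀ i < v r, coeff i (node P2 k r (t % 2 ^ k) 1) = 0)
    (hx : 2 ^ k * (Y + 2 ^ (k + b)) ≤ x) :
    ∑ r ∈ range (2 ^ k) with r % 2 ^ b = ρ % 2 ^ b ∧ v r < 2 ^ (k + b),
      N1 P2 Y (el k m ρ w v (t % 2 ^ k) r) (t / 2 ^ k) ≤ cnt1 M ρ w t x := by
  classical
  have hpos : 0 < 2 ^ k := by positivity
  set G := {r ∈ range (2 ^ k) | r % 2 ^ b = ρ % 2 ^ b ∧ v r < 2 ^ (k + b)} with hG
  have hcop : Nat.Coprime (2 ^ b) m := Nat.Coprime.pow_left _ (Nat.coprime_two_left.2 hm)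
  let T : ℕ → Finset ℕ := fun r => {a ∈ range Y | (r + 2 ^ k * (a + v r)) % m = ρ % m ∧
    coeff a (unsh (v r) (node P2 k r (t % 2 ^ k) 1) * P2 ^ (t / 2 ^ k)) ≠
      w (r + 2 ^ k * (a + v r))}
  have hN : ∀ r, N1 P2 Y (el k m ρ w v (t % 2 ^ k) r) (t / 2 ^ k) = #(T r) := by
    intro r
    unfold N1 el
    simp only [T]
  simp only [hN]
  rw [← card_sigma]
  unfold cnt1
  refine card_le_card_of_injOn (fun p : (_ : ℕ) × ℕ => p.1 + 2 ^ k * (p.2 + v p.1)) ?_ ?_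
  · rintro ⟨r, a⟩ hp
    rw [mem_coe, mem_sigma] at hp
    obtain ⟨h1, h2⟩ := hp
    simp only at h1 h2
    rw [hG, mem_filter, mem_range] at h1
    obtain ⟨hr, hr2, hr3⟩ := h1
    simp only [T] at h2
    rw [mem_filter, mem_range] at h2
    obtain ⟨ha, ha2, ha3⟩ := h2
    rw [mem_coe, mem_filter, mem_range]
    simp only
    refine ⟨?_, ?_, ?_⟩
    · have e1 : 2 ^ k * (a + v r + 1) ≤ 2 ^ k * (Y + 2 ^ (k + b)) :=
        Nat.mul_le_mul_left _ (by omega)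
      rw [mul_add, mul_one] at e1
      omega
    · rw [hM]
      refine (Nat.modEq_and_modEq_iff_modEq_mul hcop).1 ⟨?_, ha2⟩
      have e1 : r + 2 ^ k * (a + v r) ≡ r [MOD 2 ^ b] := by
        have e2 : 2 ^ b ∣ 2 ^ k * (a + v r) := (pow_dvd_pow 2 hb).mul_right _
        have e3 : 2 ^ k * (a + v r) ≡ 0 [MOD 2 ^ b] := (Nat.modEq_zero_iff_dvd).2 e2
        simpa using Nat.ModEq.add_left r e3
      exact e1.trans hr2
    · have e1 := coeff_node P2 k r t (a + v r) 1 hr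
      rw [one_mul] at e1
      rw [e1, ← node_mod, unsh_mul (hv r hr)]
      exact ha3
  · rintro ⟨r, a⟩ hp ⟨r', a'⟩ hp' h
    rw [mem_coe, mem_sigma] at hp hp'
    have h1 := hp.1
    have h2 := hp'.1
    simp only at h1 h2 h
    rw [hG, mem_filter, mem_range] at h1 h2
    have e1 : r = r' := by
      have := congrArg (fun z => z % 2 ^ k) h
      simp only [Nat.add_mul_mod_self_left, Nat.mod_eq_of_lt h1.1, Nat.mod_eq_of_lt h2.1] at this
      exact this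
    subst e1
    have e2 : a = a' := by
      have h3 : 2 ^ k * (a + v r) = 2 ^ k * (a' + v r) := by omega
      have := Nat.eq_of_mul_eq_mul_left hpos h3
      omega
    rw [e2]

end Pool.Agent.H89.MT2
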