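import Pool.Agent.H89.MT2.A

set_option autoImplicit false

/-!
# One scale
-/

namespace Pool.Agent.H89.MT2

open PowerSeries Finset Pool.Agent.K7.H72.MT

/-- if each of the numbers `N r t`, `r ∈ G`, is small for few `t`, then their sum is -/
theorem markov {α β : Type*} (G : Finset α) (hG : G.Nonempty) (T : Finset β) (N : α → β → ℝ)
    (hN : ∀ r t, 0 ≤ N r t) {B δ : ℝ} (hB : 0 < B)
    (h : ∀ r ∈ G, (#{t ∈ T | N r t < B} : ℝ) ≤ δ) :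
    (#{t ∈ T | ∑ r ∈ G, N r t < (#G : ℝ) / 2 * B} : ℝ) ≤ 2 * δ := by
  classical
  set E := {t ∈ T | ∑ r ∈ G, N r t < (#G : ℝ) / 2 * B} with hE
  have hG0 : (0 : ℝ) < #G := by exact_mod_cast hG.card_pos
  have h1 : ∀ t ∈ E, (#G : ℝ) / 2 ≤ #{r ∈ G | N r t < B} := by
    intro t ht
    rw [hE, mem_filter] at ht
    have h2 : (#{r ∈ G | ¬ N r t < B} : ℝ) * B ≤ ∑ r ∈ G, N r t := by
      calc (#{r ∈ G | ¬ N r t < B} : ℝ) * B = ∑ r ∈ G with ¬ N r t < B, B := by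
            rw [sum_const, nsmul_eq_mul]
        _ ≤ ∑ r ∈ G with ¬ N r t < B, N r t := by
            refine sum_le_sum fun r hr => ?_
            rw [mem_filter, not_lt] at hr
            exact hr.2
        _ ≤ ∑ r ∈ G, N r t := sum_le_sum_of_subset_of_nonneg (filter_subset _ _)
            fun r _ _ => hN r t
    have h3 : (#{r ∈ G | ¬ N r t < B} : ℝ) * B < (#G : ℝ) / 2 * B := h2.trans_lt ht.2
    have h4 := lt_of_mul_lt_mul_right h3 hB.le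
    have h5 : (#{r ∈ G | N r t < B} : ℝ) + #{r ∈ G | ¬ N r t < B} = #G := by
      exact_mod_cast card_filter_add_card_filter_not (s := G) (fun r => N r t < B)
    linarith
  have h2 : (#E : ℝ) * ((#G : ℝ) / 2) ≤ #G * δ := by
    calc (#E : ℝ) * ((#G : ℝ) / 2) = ∑ t ∈ E, (#G : ℝ) / 2 := by rw [sum_const, nsmul_eq_mul]
      _ ≤ ∑ t ∈ E, (#{r ∈ G | N r t < B} : ℝ) := sum_le_sum h1
      _ ≤ ∑ t ∈ T, (#{r ∈ G | N r t < B} : ℝ) :=
          sum_le_sum_of_subset_of_nonneg (filter_subset _ _) fun _ _ _ => by positivity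
      _ = ∑ r ∈ G, (#{t ∈ T | N r t < B} : ℝ) := by
          simp only [card_filter, Nat.cast_sum]
          rw [sum_comm]
      _ ≤ ∑ r ∈ G, δ := sum_le_sum h
      _ = #G * δ := by rw [sum_const, nsmul_eq_mul]
  have h3 : (#G : ℝ) * #E ≤ #G * (2 * δ) := by nlinarith
  exact le_of_mul_le_mul_left h3 hG0

open scoped Classical in
/-- the bound at one scale -/
theorem scale {M m b : ℕ} (hM : M = 2 ^ b * m) (hm : Odd m) {η C D₀ : ℝ} (hD : 0 < D₀)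
    (hU : ∀ (U : S) (w : ℕ → ZMod 2) (A : ℕ → Prop), coeff 0 U = 1 → Dn m A → ∀ K i : ℕ, i ≤ K →
      (#{t ∈ range (2 ^ K) | (N1 P2 (2 ^ i) (U, w, A) t : ℝ) < D₀ * 2 ^ (3 / 4 * (i : ℝ))} : ℝ) ≤
        C * 2 ^ K * 2 ^ (-η * i))
    (ρ : ℕ) (w : ℕ → ZMod 2) (k K : ℕ) (hb : b ≤ k) (hk : 1 ≤ k) (hK : 2 * k ≤ K) :
    (#{t ∈ range (2 ^ K) | t % 2 = 1 ∧ (cnt1 M ρ w t (2 ^ (2 * k + b + 1)) : ℝ) <
      D₀ * 2 ^ (7 / 4 * (k : ℝ)) / 2 ^ (b + 2)} : ℝ) ≤ 2 * C * 2 ^ K * 2 ^ (-η * k) := by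
  have hpos : 0 < 2 ^ k := by positivity
  have hex : ∀ t₁, ∃ v : ℕ → ℕ, t₁ % 2 = 1 → t₁ < 2 ^ k →
      (∀ r < 2 ^ k, (∀ i < v r, coeff i (node P2 k r t₁ 1) = 0) ∧
        coeff 0 (unsh (v r) (node P2 k r t₁ 1)) = 1) ∧
      3 * ∑ r ∈ range (2 ^ k), (r + 2 ^ k * v r) ≤ 8 ^ k := by
    intro t₁
    by_cases h1 : t₁ % 2 = 1
    · by_cases h2 : t₁ < 2 ^ k
      · obtain ⟨v, hv⟩ := orders t₁ k h1 h2
        exact ⟨v, fun _ _ => hv⟩
      · exact ⟨fun _ => 0, fun _ h => absurd h h2⟩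
    · exact ⟨fun _ => 0, fun h => absurd h h1⟩
  choose v hv using hex
  set B : ℝ := D₀ * 2 ^ (3 / 4 * (k : ℝ)) with hB
  have hB0 : 0 < B := by positivity
  let G : ℕ → Finset ℕ := fun t₁ => {r ∈ range (2 ^ k) | r % 2 ^ b = ρ % 2 ^ b ∧
    v t₁ r < 2 ^ (k + b)}
  let E : ℕ → Finset ℕ := fun t₁ => {t₂ ∈ range (2 ^ (K - k)) |
    ∑ r ∈ G t₁, (N1 P2 (2 ^ k) (el k m ρ w (v t₁) t₁ r) t₂ : ℝ) < (#(G t₁) : ℝ) / 2 * B}
  have hGc : ∀ t₁, t₁ % 2 = 1 → t₁ < 2 ^ k → 2 ^ k ≤ 2 ^ (b + 1) * #(G t₁) := fun t₁ h1 h2 =>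
    good_card k b ρ hb (v t₁) (hv t₁ h1 h2).2
  have hGne : ∀ t₁, t₁ % 2 = 1 → t₁ < 2 ^ k → (G t₁).Nonempty := by
    intro t₁ h1 h2
    rw [← card_pos]
    have := hGc t₁ h1 h2
    rcases Nat.eq_zero_or_pos (#(G t₁)) with h | h
    · rw [h, mul_zero] at this
      omega
    · exact h
  have hE : ∀ t₁, t₁ % 2 = 1 → t₁ < 2 ^ k → (#(E t₁) : ℝ) ≤ 2 * (C * 2 ^ (K - k) * 2 ^ (-η * k)) := by
    intro t₁ h1 h2
    refine markov (G t₁) (hGne t₁ h1 h2) (range (2 ^ (K - k)))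
      (fun r t₂ => (N1 P2 (2 ^ k) (el k m ρ w (v t₁) t₁ r) t₂ : ℝ)) (fun _ _ => by positivity)
      hB0 ?_
    intro r hr
    have hr' : r < 2 ^ k := by
      have := (mem_filter.1 hr).1
      exact mem_range.1 this
    unfold el
    refine hU _ _ _ ((hv t₁ h1 h2).1 r hr').2 ?_ (K - k) k (by omega)
    exact (Dn_odd hm k r ρ).shift (v t₁ r)
  -- the union over `t₁`
  have hcard : #{t ∈ range (2 ^ K) | t % 2 = 1 ∧ (cnt1 M ρ w t (2 ^ (2 * k + b + 1)) : ℝ) <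
      D₀ * 2 ^ (7 / 4 * (k : ℝ)) / 2 ^ (b + 2)} ≤
      ∑ t₁ ∈ range (2 ^ k) with t₁ % 2 = 1, #(E t₁) := by
    rw [← card_sigma]
    refine card_le_card_of_injOn (fun t => (⟨t % 2 ^ k, t / 2 ^ k⟩ : (_ : ℕ) × ℕ)) ?_ ?_
    · intro t ht
      rw [mem_coe, mem_filter, mem_range] at ht
      obtain ⟨h1, h2, h3⟩ := ht
      have hlt : t % 2 ^ k < 2 ^ k := Nat.mod_lt _ hpos
      have hodd : t % 2 ^ k % 2 = 1 := by
        rw [Nat.mod_mod_of_dvd _ (dvd_pow_self 2 (by omega))]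
        exact h2
      rw [mem_coe, mem_sigma]
      refine ⟨mem_filter.2 ⟨mem_range.2 hlt, hodd⟩, mem_filter.2 ⟨?_, ?_⟩⟩
      · rw [mem_range]
        apply Nat.div_lt_of_lt_mul
        rw [← pow_add, Nat.add_sub_cancel' (by omega)]
        exact h1
      · simp only
        have e1 := sum_N1_le (M := M) (ρ := ρ) hM hm hb w (v (t % 2 ^ k)) t (2 ^ (2 * k + b + 1))
          (2 ^ k) (fun r hr => ((hv _ hodd hlt).1 r hr).1) (by
            have e1 : 2 ^ k * (2 ^ k + 2 ^ (k + b)) = 2 ^ (2 * k) + 2 ^ (2 * k + b) := by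
              rw [mul_add, ← pow_add, ← pow_add]
              congr 2 <;> omega
            have e2 : 2 ^ (2 * k) ≤ 2 ^ (2 * k + b) := Nat.pow_le_pow_right (by norm_num) (by omega)
            rw [e1, pow_succ]
            omega)
        have e2 : (∑ r ∈ G (t % 2 ^ k),
            (N1 P2 (2 ^ k) (el k m ρ w (v (t % 2 ^ k)) (t % 2 ^ k) r) (t / 2 ^ k) : ℝ)) ≤
            cnt1 M ρ w t (2 ^ (2 * k + b + 1)) := by exact_mod_cast e1
        refine (e2.trans_lt h3).trans_le ?_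
        have e3 : (2 : ℝ) ^ k ≤ 2 ^ (b + 1) * #(G (t % 2 ^ k)) := by
          exact_mod_cast hGc _ hodd hlt
        have e4 : (2 : ℝ) ^ (7 / 4 * (k : ℝ)) = 2 ^ k * 2 ^ (3 / 4 * (k : ℝ)) := by
          rw [← Real.rpow_natCast 2 k, ← Real.rpow_add (by norm_num)]
          congr 1
          ring
        rw [e4, hB, div_le_iff₀ (by positivity), pow_succ (2 : ℝ) (b + 1)]
        have e5 : (0 : ℝ) < D₀ * 2 ^ (3 / 4 * (k : ℝ)) := by positivity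
        have e6 := mul_le_mul_of_nonneg_right e3 e5.le
        calc D₀ * (2 ^ k * 2 ^ (3 / 4 * (k : ℝ))) = 2 ^ k * (D₀ * 2 ^ (3 / 4 * (k : ℝ))) := by ring
          _ ≤ 2 ^ (b + 1) * #(G (t % 2 ^ k)) * (D₀ * 2 ^ (3 / 4 * (k : ℝ))) := e6
          _ = _ := by ring
    · intro t _ t' _ h
      simp only [Sigma.mk.injEq, heq_eq_eq] at h
      rw [← Nat.mod_add_div t (2 ^ k), ← Nat.mod_add_div t' (2 ^ k), h.1, h.2]
  have hC : 0 ≤ C := by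
    have h1 := hU 1 (fun _ => 0) (fun a => (0 + 2 ^ 0 * a) % m = 0 % m) (by simp)
      (Dn_odd hm 0 0 0) 0 0 le_rfl
    have h2 : (0 : ℝ) ≤ C * 2 ^ 0 * 2 ^ (-η * ((0 : ℕ) : ℝ)) := le_trans (by positivity) h1
    simpa using h2
  calc _ ≤ ((∑ t₁ ∈ range (2 ^ k) with t₁ % 2 = 1, #(E t₁) : ℕ) : ℝ) := by exact_mod_cast hcard
    _ = ∑ t₁ ∈ range (2 ^ k) with t₁ % 2 = 1, (#(E t₁) : ℝ) := by push_cast; rfl
    _ ≤ ∑ t₁ ∈ range (2 ^ k) with t₁ % 2 = 1, 2 * (C * 2 ^ (K - k) * 2 ^ (-η * k)) := by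
        refine sum_le_sum fun t₁ h => ?_
        rw [mem_filter, mem_range] at h
        exact hE t₁ h.2 h.1
    _ ≤ ∑ t₁ ∈ range (2 ^ k), 2 * (C * 2 ^ (K - k) * 2 ^ (-η * k)) :=
        sum_le_sum_of_subset_of_nonneg (filter_subset _ _) fun _ _ _ => by positivity
    _ = 2 * C * (2 ^ k * 2 ^ (K - k)) * 2 ^ (-η * k) := by
        rw [sum_const, card_range, nsmul_eq_mul]
        push_cast
        ring
    _ = _ := by
        rw [← pow_add, Nat.add_sub_cancel' (show k ≤ K by omega)]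

end Pool.Agent.H89.MT2
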