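import Pool.Agent.H89.MT2.B

set_option autoImplicit false

/-!
# All scales
-/

namespace Pool.Agent.H89.MT2

open PowerSeries Finset Pool.Agent.K7.H72.MT

open scoped Classical in
theorem prog (M : ℕ) (hM : 0 < M) : ∃ η : ℝ, 0 < η ∧ ∀ (ρ : ℕ) (w : ℕ → ZMod 2) (D : ℝ), 0 < D →
    ∃ C : ℝ, 0 < C ∧ ∀ K X₀ : ℕ, 1 ≤ X₀ →
      (#{t ∈ range (2 ^ K) | t % 2 = 1 ∧ ∃ x, X₀ ≤ x ∧ x < 2 ^ K ∧
        (cnt1 M ρ w t x : ℝ) < D * (x : ℝ) ^ (7 / 8 : ℝ)} : ℝ) ≤ C * 2 ^ K / (X₀ : ℝ) ^ η := by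
  obtain ⟨b, m, hm, hMm⟩ := Nat.exists_eq_two_pow_mul_odd hM.ne'
  obtain ⟨η₀, hη₀, hmain⟩ := unit_bound m hm.pos
  refine ⟨η₀ / 2, by positivity, ?_⟩
  intro ρ w D hD
  obtain ⟨C₀, hC₀, hb⟩ := hmain (D * 2 ^ (2 * b + 5)) (by positivity)
  have hU := hb P2 isP_P2
  set r : ℝ := (2 : ℝ) ^ (-η₀) with hr
  have hr0 : 0 < r := by positivity
  have hr1 : r < 1 := Real.rpow_lt_one_of_one_lt_of_neg (by norm_num) (by linarith)
  have h1r : 0 < 1 - r := by linarith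
  set M₀ : ℕ := 2 ^ (3 * b + 6) with hM0
  refine ⟨2 ^ (η₀ / 2 * (b + 3)) * (2 * C₀) / (1 - r) + (M₀ : ℝ) ^ (η₀ / 2), by positivity, ?_⟩
  intro K X₀ hX0
  have hX0p : (0 : ℝ) < X₀ := by exact_mod_cast hX0
  have hX0r : (0 : ℝ) < (X₀ : ℝ) ^ (η₀ / 2) := by positivity
  rw [le_div_iff₀ hX0r]
  rcases Nat.lt_or_ge X₀ M₀ with hlt | hge
  · have h1 : (#{t ∈ range (2 ^ K) | t % 2 = 1 ∧ ∃ x, X₀ ≤ x ∧ x < 2 ^ K ∧
        (cnt1 M ρ w t x : ℝ) < D * (x : ℝ) ^ (7 / 8 : ℝ)} : ℝ) ≤ 2 ^ K := by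
      have := card_filter_le (range (2 ^ K)) (fun t => t % 2 = 1 ∧ ∃ x, X₀ ≤ x ∧ x < 2 ^ K ∧
        (cnt1 M ρ w t x : ℝ) < D * (x : ℝ) ^ (7 / 8 : ℝ))
      rw [card_range] at this
      exact_mod_cast this
    have h2 : (X₀ : ℝ) ^ (η₀ / 2) ≤ (M₀ : ℝ) ^ (η₀ / 2) := by
      apply Real.rpow_le_rpow (by positivity) _ (by positivity)
      exact_mod_cast hlt.le
    have h3 : 0 ≤ 2 ^ (η₀ / 2 * (b + 3)) * (2 * C₀) / (1 - r) := by positivity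
    calc _ ≤ (2 : ℝ) ^ K * (M₀ : ℝ) ^ (η₀ / 2) := by gcongr
      _ ≤ (2 ^ (η₀ / 2 * (b + 3)) * (2 * C₀) / (1 - r) + (M₀ : ℝ) ^ (η₀ / 2)) * 2 ^ K := by
          have : (0 : ℝ) < 2 ^ K := by positivity
          nlinarith
  · set k0 : ℕ := (Nat.log 2 X₀ - b - 1) / 2 with hk0
    have hlog1 : 3 * b + 6 ≤ Nat.log 2 X₀ := Nat.le_log_of_pow_le (by norm_num) hge
    have hsub : ({t ∈ range (2 ^ K) | t % 2 = 1 ∧ ∃ x, X₀ ≤ x ∧ x < 2 ^ K ∧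
        (cnt1 M ρ w t x : ℝ) < D * (x : ℝ) ^ (7 / 8 : ℝ)}) ⊆
        ((Ico k0 K).filter fun k => b ≤ k ∧ 1 ≤ k ∧ 2 * k ≤ K).biUnion fun k =>
          {t ∈ range (2 ^ K) | t % 2 = 1 ∧ (cnt1 M ρ w t (2 ^ (2 * k + b + 1)) : ℝ) <
            (D * 2 ^ (2 * b + 5)) * 2 ^ (7 / 4 * (k : ℝ)) / 2 ^ (b + 2)} := by
      intro t ht
      obtain ⟨htK, hodd, x, hx1, hx2, hx3⟩ := mem_filter.1 ht
      rw [mem_biUnion]
      have hx0 : x ≠ 0 := by omega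
      have hl1 : 2 ^ Nat.log 2 x ≤ x := Nat.pow_log_le_self 2 hx0
      have hl2 : x < 2 ^ (Nat.log 2 x + 1) := Nat.lt_pow_succ_log_self (by norm_num) x
      have hlK : Nat.log 2 x < K := by
        apply (Nat.pow_lt_pow_iff_right (a := 2) (by norm_num)).1
        omega
      have hmono : Nat.log 2 X₀ ≤ Nat.log 2 x := Nat.log_mono_right hx1
      set l := Nat.log 2 x with hl
      refine ⟨(l - b - 1) / 2, ?_, mem_filter.2 ⟨htK, hodd, ?_⟩⟩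
      · rw [mem_filter, mem_Ico]
        omega
      · set k := (l - b - 1) / 2 with hk
        have hk1 : 2 * k + b + 1 ≤ l := by omega
        have hk2 : l + 1 ≤ 2 * k + b + 3 := by omega
        have hle : cnt1 M ρ w t (2 ^ (2 * k + b + 1)) ≤ cnt1 M ρ w t x :=
          cnt1_mono M ρ w t ((Nat.pow_le_pow_right (by norm_num) hk1).trans hl1)
        have hle' : (cnt1 M ρ w t (2 ^ (2 * k + b + 1)) : ℝ) ≤ cnt1 M ρ w t x := by
          exact_mod_cast hle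
        refine (hle'.trans_lt hx3).trans_le ?_
        have hxr : (x : ℝ) ≤ 2 ^ (2 * (k : ℝ) + b + 3) := by
          have h1 : x ≤ 2 ^ (2 * k + b + 3) :=
            hl2.le.trans (Nat.pow_le_pow_right (by norm_num) hk2)
          have h2 : (x : ℝ) ≤ 2 ^ (2 * k + b + 3) := by exact_mod_cast h1
          rw [← Real.rpow_natCast] at h2
          push_cast at h2
          exact h2
        have e1 : (2 : ℝ) ^ (7 / 8 * ((b : ℝ) + 3)) ≤ 2 ^ (b + 3) := by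
          rw [← Real.rpow_natCast]
          apply Real.rpow_le_rpow_of_exponent_le (by norm_num)
          push_cast
          have : (0 : ℝ) ≤ b := by positivity
          linarith
        calc D * (x : ℝ) ^ (7 / 8 : ℝ) ≤ D * (2 ^ (2 * (k : ℝ) + b + 3)) ^ (7 / 8 : ℝ) := by gcongr
          _ = D * (2 ^ (7 / 8 * ((b : ℝ) + 3)) * 2 ^ (7 / 4 * (k : ℝ))) := by
              rw [← Real.rpow_mul (by norm_num), ← Real.rpow_add (by norm_num)]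
              congr 2
              ring
          _ ≤ D * (2 ^ (b + 3) * 2 ^ (7 / 4 * (k : ℝ))) := by gcongr
          _ = (D * 2 ^ (2 * b + 5)) * 2 ^ (7 / 4 * (k : ℝ)) / 2 ^ (b + 2) := by
              rw [eq_div_iff (by positivity)]
              have e2 : (2 : ℝ) ^ (2 * b + 5) = 2 ^ (b + 3) * 2 ^ (b + 2) := by
                rw [← pow_add]
                congr 1
                ring
              rw [e2]
              ring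
    have hcard := (card_le_card hsub).trans card_biUnion_le
    have hcard3 : (#{t ∈ range (2 ^ K) | t % 2 = 1 ∧ ∃ x, X₀ ≤ x ∧ x < 2 ^ K ∧
        (cnt1 M ρ w t x : ℝ) < D * (x : ℝ) ^ (7 / 8 : ℝ)} : ℝ) ≤
        ∑ j ∈ Ico k0 K, 2 * C₀ * 2 ^ K * r ^ j := by
      calc _ ≤ ((∑ k ∈ (Ico k0 K).filter fun k => b ≤ k ∧ 1 ≤ k ∧ 2 * k ≤ K,
          #{t ∈ range (2 ^ K) | t % 2 = 1 ∧ (cnt1 M ρ w t (2 ^ (2 * k + b + 1)) : ℝ) <
            (D * 2 ^ (2 * b + 5)) * 2 ^ (7 / 4 * (k : ℝ)) / 2 ^ (b + 2)} : ℕ) : ℝ) := by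
            exact_mod_cast hcard
        _ = ∑ k ∈ (Ico k0 K).filter fun k => b ≤ k ∧ 1 ≤ k ∧ 2 * k ≤ K,
          (#{t ∈ range (2 ^ K) | t % 2 = 1 ∧ (cnt1 M ρ w t (2 ^ (2 * k + b + 1)) : ℝ) <
            (D * 2 ^ (2 * b + 5)) * 2 ^ (7 / 4 * (k : ℝ)) / 2 ^ (b + 2)} : ℝ) := by
            push_cast
            rfl
        _ ≤ ∑ k ∈ (Ico k0 K).filter fun k => b ≤ k ∧ 1 ≤ k ∧ 2 * k ≤ K,
            2 * C₀ * 2 ^ K * r ^ k := by
            refine sum_le_sum fun k hk => ?_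
            rw [mem_filter] at hk
            obtain ⟨-, g1, g2, g3⟩ := hk
            refine (scale hMm hm (by positivity) hU ρ w k K g1 g2 g3).trans (le_of_eq ?_)
            rw [hr, ← Real.rpow_natCast ((2 : ℝ) ^ (-η₀)) k, ← Real.rpow_mul (by norm_num)]
        _ ≤ ∑ k ∈ Ico k0 K, 2 * C₀ * 2 ^ K * r ^ k :=
            sum_le_sum_of_subset_of_nonneg (filter_subset _ _) fun _ _ _ => by positivity
    have hgeom : ∑ j ∈ Ico k0 K, r ^ j ≤ r ^ k0 / (1 - r) :=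
      geom_sum_Ico_le_of_lt_one hr0.le hr1
    have hrj : r ^ k0 * (X₀ : ℝ) ^ (η₀ / 2) ≤ 2 ^ (η₀ / 2 * (b + 3)) := by
      have h1 : X₀ < 2 ^ (Nat.log 2 X₀ + 1) := Nat.lt_pow_succ_log_self (by norm_num) X₀
      have h2 : (X₀ : ℝ) ≤ 2 ^ (2 * (k0 : ℝ) + b + 3) := by
        have h3 : X₀ ≤ 2 ^ (2 * k0 + b + 3) :=
          h1.le.trans (Nat.pow_le_pow_right (by norm_num) (by omega))
        have h4 : (X₀ : ℝ) ≤ 2 ^ (2 * k0 + b + 3) := by exact_mod_cast h3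
        rw [← Real.rpow_natCast] at h4
        push_cast at h4
        exact h4
      calc r ^ k0 * (X₀ : ℝ) ^ (η₀ / 2) ≤ r ^ k0 * (2 ^ (2 * (k0 : ℝ) + b + 3)) ^ (η₀ / 2) := by
            gcongr
        _ = 2 ^ (η₀ / 2 * (b + 3)) := by
            rw [hr, ← Real.rpow_natCast ((2 : ℝ) ^ (-η₀)) k0, ← Real.rpow_mul (by norm_num),
              ← Real.rpow_mul (by norm_num), ← Real.rpow_add (by norm_num)]
            congr 1
            ring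
    calc _ ≤ (∑ j ∈ Ico k0 K, 2 * C₀ * 2 ^ K * r ^ j) * (X₀ : ℝ) ^ (η₀ / 2) := by gcongr
      _ = 2 * C₀ * 2 ^ K * (∑ j ∈ Ico k0 K, r ^ j) * (X₀ : ℝ) ^ (η₀ / 2) := by
          rw [← mul_sum]
      _ ≤ 2 * C₀ * 2 ^ K * (r ^ k0 / (1 - r)) * (X₀ : ℝ) ^ (η₀ / 2) := by gcongr
      _ = 2 * C₀ * 2 ^ K / (1 - r) * (r ^ k0 * (X₀ : ℝ) ^ (η₀ / 2)) := by ring
      _ ≤ 2 * C₀ * 2 ^ K / (1 - r) * 2 ^ (η₀ / 2 * (b + 3)) := by gcongr
      _ = 2 ^ (η₀ / 2 * (b + 3)) * (2 * C₀) / (1 - r) * 2 ^ K := by ring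
      _ ≤ (2 ^ (η₀ / 2 * (b + 3)) * (2 * C₀) / (1 - r) + (M₀ : ℝ) ^ (η₀ / 2)) * 2 ^ K := by
          have : (0 : ℝ) ≤ (M₀ : ℝ) ^ (η₀ / 2) := by positivity
          gcongr
          linarith

end Pool.Agent.H89.MT2
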