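import Pool.Agent.H89.MT2.C

set_option autoImplicit false

/-!
# Almost all 2-adic `t`, and the dimension of the exceptional set
-/

namespace Pool.Agent.H89.MT2

open PowerSeries Finset MeasureTheory Pool.Agent.K7.H72.MT

/-- the number of the `n ≤ x` in the residue class with a value different from `w` -/
noncomputable def cz (M ρ : ℕ) (w : ℕ → ZMod 2) (t : ℤ_[2]) (x : ℕ) : ℕ :=
  #{n ∈ range (x + 1) | n % M = ρ % M ∧ pz t n ≠ w n}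

theorem cz_eq (M ρ : ℕ) (w : ℕ → ZMod 2) (t : ℤ_[2]) {x K : ℕ} (h : x < 2 ^ K) :
    cz M ρ w t x = cnt1 M ρ w (t.appr K) x := by
  unfold cz cnt1
  congr 1
  ext n
  rw [mem_filter, mem_filter]
  refine and_congr_right fun hn => and_congr_right fun _ => ?_
  rw [mem_range] at hn
  rw [pz_eq t (show n < 2 ^ K by omega)]

theorem appr_odd (t : ℤ_[2]) (K : ℕ) (hK : 1 ≤ K) : t.appr K % 2 = t.appr 1 := by
  have h1 := appr_modEq t hK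
  rw [pow_one] at h1
  have h2 := PadicInt.appr_lt t 1
  rw [pow_one] at h2
  rw [← h1, Nat.mod_eq_of_lt h2]

/-- one progression -/
theorem ae_one (M : ℕ) (hM : 0 < M) (ρ : ℕ) (w : ℕ → ZMod 2) (D : ℝ) (hD : 0 < D)
    [MeasurableSpace ℤ_[2]] [BorelSpace ℤ_[2]] (μ : Measure ℤ_[2]) [IsProbabilityMeasure μ]
    [μ.IsAddLeftInvariant] :
    ∀ᵐ t ∂μ, t.appr 1 = 1 → ∃ x₀ : ℕ, ∀ x : ℕ, x₀ ≤ x →
      D * (x : ℝ) ^ (7 / 8 : ℝ) ≤ cz M ρ w t x := by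
  classical
  obtain ⟨η, hη, hmain⟩ := prog M hM
  obtain ⟨C, hC, hb⟩ := hmain ρ w D hD
  rw [ae_iff]
  set Bd : Set ℤ_[2] := {t | ¬ (t.appr 1 = 1 → ∃ x₀ : ℕ, ∀ x : ℕ, x₀ ≤ x →
      D * (x : ℝ) ^ (7 / 8 : ℝ) ≤ cz M ρ w t x)} with hBd
  have hle : ∀ X₀ : ℕ, 1 ≤ X₀ → μ Bd ≤ ENNReal.ofReal (C / (X₀ : ℝ) ^ η) := by
    intro X₀ hX0
    let E : ℕ → Finset ℕ := fun K => {t ∈ range (2 ^ K) | t % 2 = 1 ∧ ∃ x, X₀ ≤ x ∧ x < 2 ^ K ∧
        (cnt1 M ρ w t x : ℝ) < D * (x : ℝ) ^ (7 / 8 : ℝ)}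
    have hmemE : ∀ (t : ℤ_[2]) (K : ℕ), t.appr K ∈ E K ↔ t.appr K % 2 = 1 ∧
        ∃ x, X₀ ≤ x ∧ x < 2 ^ K ∧ (cz M ρ w t x : ℝ) < D * (x : ℝ) ^ (7 / 8 : ℝ) := by
      intro t K
      rw [mem_filter, mem_range]
      constructor
      · rintro ⟨-, h0, x, h1, h2, h3⟩
        refine ⟨h0, x, h1, h2, ?_⟩
        rw [cz_eq M ρ w t h2]
        exact h3
      · rintro ⟨h0, x, h1, h2, h3⟩
        refine ⟨PadicInt.appr_lt t K, h0, x, h1, h2, ?_⟩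
        rw [cz_eq M ρ w t h2] at h3
        exact h3
    have hsub : Bd ⊆ ⋃ K, {t : ℤ_[2] | t.appr K ∈ E K} := by
      intro t ht
      change ¬ (t.appr 1 = 1 → ∃ x₀ : ℕ, ∀ x : ℕ, x₀ ≤ x →
        D * (x : ℝ) ^ (7 / 8 : ℝ) ≤ cz M ρ w t x) at ht
      push Not at ht
      obtain ⟨ht1, ht⟩ := ht
      obtain ⟨x, hx1, hx2⟩ := ht X₀
      rw [Set.mem_iUnion]
      refine ⟨x, (hmemE t x).2 ⟨?_, x, hx1, Nat.lt_two_pow_self, hx2⟩⟩
      rw [appr_odd t _ (by omega), ht1]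
    have hmono : Monotone fun K => {t : ℤ_[2] | t.appr K ∈ E K} := by
      intro K K' hK t ht
      obtain ⟨h0, x, h1, h2, h3⟩ := (hmemE t K).1 ht
      refine (hmemE t K').2 ⟨?_, x, h1, h2.trans_le (Nat.pow_le_pow_right (by norm_num) hK), h3⟩
      have hK1 : 1 ≤ K := by
        rcases Nat.eq_zero_or_pos K with rfl | h
        · rw [pow_zero] at h2
          omega
        · exact h
      rw [appr_odd t K' (by omega), ← appr_odd t K hK1]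
      exact h0
    refine (measure_mono hsub).trans ?_
    rw [hmono.measure_iUnion]
    refine iSup_le fun K => ?_
    refine (measure_finset μ K (E K) (filter_subset _ _)).trans ?_
    apply ENNReal.ofReal_le_ofReal
    have h1 := hb K X₀ hX0
    have h2 : (0 : ℝ) < 2 ^ K := by positivity
    rw [div_le_iff₀ h2]
    calc (#(E K) : ℝ) ≤ C * 2 ^ K / (X₀ : ℝ) ^ η := h1
      _ = C / (X₀ : ℝ) ^ η * 2 ^ K := by ring
  have hlim : Filter.Tendsto (fun n : ℕ => ENNReal.ofReal (C / (n : ℝ) ^ η)) Filter.atTop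
      (nhds (ENNReal.ofReal 0)) := by
    apply ENNReal.tendsto_ofReal
    have h1 : Filter.Tendsto (fun n : ℕ => (n : ℝ) ^ η) Filter.atTop Filter.atTop :=
      (tendsto_rpow_atTop hη).comp tendsto_natCast_atTop_atTop
    exact h1.const_div_atTop C
  rw [ENNReal.ofReal_zero] at hlim
  refine le_antisymm ?_ zero_le
  refine ge_of_tendsto hlim ?_
  filter_upwards [Filter.eventually_ge_atTop 1] with n hn using hle n hn

theorem tendsto_of_all {M ρ : ℕ} {w : ℕ → ZMod 2} {t : ℤ_[2]}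
    (h : ∀ D : ℕ, 0 < D → ∃ x₀ : ℕ, ∀ x : ℕ, x₀ ≤ x →
      (D : ℝ) * (x : ℝ) ^ (7 / 8 : ℝ) ≤ cz M ρ w t x) :
    Filter.Tendsto (fun x : ℕ => (cz M ρ w t x : ℝ) / (x : ℝ) ^ (7 / 8 : ℝ)) Filter.atTop
        Filter.atTop := by
  rw [Filter.tendsto_atTop]
  intro B
  obtain ⟨D, hD⟩ := exists_nat_ge B
  obtain ⟨x₀, hx₀⟩ := h (D + 1) (Nat.succ_pos D)
  filter_upwards [Filter.eventually_ge_atTop (max x₀ 1)] with x hx
  have hx1 : (0 : ℝ) < x := by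
    exact_mod_cast (le_max_right x₀ 1).trans hx
  have hxp : 0 < (x : ℝ) ^ (7 / 8 : ℝ) := by positivity
  rw [le_div_iff₀ hxp]
  refine le_trans ?_ (hx₀ x ((le_max_left _ _).trans hx))
  push_cast
  gcongr
  linarith

/-- all progressions -/
theorem ae_all (w : ℕ → ZMod 2)
    [MeasurableSpace ℤ_[2]] [BorelSpace ℤ_[2]] (μ : Measure ℤ_[2]) [IsProbabilityMeasure μ]
    [μ.IsAddLeftInvariant] :
    ∀ᵐ t ∂μ, t.appr 1 = 1 → ∀ M : ℕ, 0 < M → ∀ ρ : ℕ,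
      Filter.Tendsto (fun x : ℕ => (cz M ρ w t x : ℝ) / (x : ℝ) ^ (7 / 8 : ℝ)) Filter.atTop
        Filter.atTop := by
  have h : ∀ᵐ t ∂μ, ∀ (M ρ D : ℕ), 0 < M → 0 < D →
      t.appr 1 = 1 → ∃ x₀ : ℕ, ∀ x : ℕ, x₀ ≤ x →
        (D : ℝ) * (x : ℝ) ^ (7 / 8 : ℝ) ≤ cz M ρ w t x := by
    rw [MeasureTheory.ae_all_iff]
    intro M
    rw [MeasureTheory.ae_all_iff]
    intro ρ
    rw [MeasureTheory.ae_all_iff]
    intro D
    by_cases hM : 0 < M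
    · by_cases hD : 0 < D
      · filter_upwards [ae_one M hM ρ w D (by exact_mod_cast hD) μ] with t ht _ _
        exact ht
      · exact Filter.Eventually.of_forall fun t _ h => absurd h hD
    · exact Filter.Eventually.of_forall fun t h => absurd h hM
  filter_upwards [h] with t ht h1 M hM ρ
  exact tendsto_of_all fun D hD => ht M ρ D hM hD h1

/-- the exceptional set -/
def Bd (M ρ : ℕ) (w : ℕ → ZMod 2) (D : ℝ) : Set ℤ_[2] :=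
  {t | t.appr 1 = 1 ∧ ¬ ∃ x₀ : ℕ, ∀ x : ℕ, x₀ ≤ x → D * (x : ℝ) ^ (7 / 8 : ℝ) ≤ cz M ρ w t x}

theorem dim_Bd {M : ℕ} {η : ℝ} (hη : 0 < η) (ρ : ℕ)
    (w : ℕ → ZMod 2) (D C : ℝ) (hC : 0 < C) (hb : ∀ K X₀ : ℕ, 1 ≤ X₀ →
      (Set.ncard {t : ℕ | t < 2 ^ K ∧ t % 2 = 1 ∧ ∃ x, X₀ ≤ x ∧ x < 2 ^ K ∧
        (cnt1 M ρ w t x : ℝ) < D * (x : ℝ) ^ (7 / 8 : ℝ)} : ℝ) ≤ C * 2 ^ K / (X₀ : ℝ) ^ η) :
    dimH (Bd M ρ w D) ≤ ENNReal.ofReal (1 - min η 1 / 2) := by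
  classical
  set η' : ℝ := min η 1 with hη'
  have h0 : 0 < η' := lt_min hη one_pos
  have h1 : η' ≤ 1 := min_le_right _ _
  have h2 : η' ≤ η := min_le_left _ _
  refine dim_limsup (E := fun K => {t ∈ range (2 ^ K) | t % 2 = 1 ∧ ∃ x, 2 ^ (K - 2) ≤ x ∧
      x < 2 ^ K ∧ (cnt1 M ρ w t x : ℝ) < D * (x : ℝ) ^ (7 / 8 : ℝ)})
    (C := C * 4) (δ := η' / 2) (K₀ := 2) (by linarith) (by linarith) (by positivity) ?_ ?_
  · intro K hK
    have h3 := hb K (2 ^ (K - 2)) Nat.one_le_two_pow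
    have h4 : (#{t ∈ range (2 ^ K) | t % 2 = 1 ∧ ∃ x, 2 ^ (K - 2) ≤ x ∧
        x < 2 ^ K ∧ (cnt1 M ρ w t x : ℝ) < D * (x : ℝ) ^ (7 / 8 : ℝ)} : ℝ) =
        (Set.ncard {t : ℕ | t < 2 ^ K ∧ t % 2 = 1 ∧ ∃ x, 2 ^ (K - 2) ≤ x ∧ x < 2 ^ K ∧
          (cnt1 M ρ w t x : ℝ) < D * (x : ℝ) ^ (7 / 8 : ℝ)} : ℝ) := by
      rw [← Set.ncard_coe_finset]
      congr 2
      ext t
      simp
    refine (h4.le.trans h3).trans ?_
    have h5 : ((2 ^ (K - 2) : ℕ) : ℝ) = (2 : ℝ) ^ ((K : ℝ) - 2) := by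
      rw [Nat.cast_pow, ← Real.rpow_natCast, Nat.cast_sub hK]
      norm_num
    have h6 : (2 : ℝ) ^ (((K : ℝ) - 2) * η') ≤ ((2 ^ (K - 2) : ℕ) : ℝ) ^ η := by
      rw [h5, ← Real.rpow_mul (by norm_num)]
      apply Real.rpow_le_rpow_of_exponent_le (by norm_num)
      have : (2 : ℝ) ≤ K := by exact_mod_cast hK
      exact mul_le_mul_of_nonneg_left h2 (by linarith)
    calc C * 2 ^ K / ((2 ^ (K - 2) : ℕ) : ℝ) ^ η ≤ C * 2 ^ K / (2 : ℝ) ^ (((K : ℝ) - 2) * η') := by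
          gcongr
      _ = C * (2 : ℝ) ^ (2 * η') * (2 : ℝ) ^ ((1 - η' / 2 - η' / 2) * (K : ℝ)) := by
          rw [mul_assoc, ← Real.rpow_add (by norm_num), mul_div_assoc, ← Real.rpow_natCast,
            ← Real.rpow_sub (by norm_num)]
          congr 2
          ring
      _ ≤ C * 4 * (2 : ℝ) ^ ((1 - η' / 2 - η' / 2) * (K : ℝ)) := by
          gcongr
          calc (2 : ℝ) ^ (2 * η') ≤ (2 : ℝ) ^ (2 : ℝ) := by
                apply Real.rpow_le_rpow_of_exponent_le (by norm_num)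
                linarith
            _ = 4 := by norm_num
  · intro n hn t ht
    obtain ⟨ht1, ht2⟩ := ht
    push Not at ht2
    obtain ⟨x, hx1, hx2⟩ := ht2 (2 ^ n)
    have hpos : 0 < 2 ^ n := by positivity
    have hxL : x ≠ 0 := by omega
    have hl1 : 2 ^ Nat.log 2 x ≤ x := Nat.pow_log_le_self 2 hxL
    have hl2 : x < 2 ^ (Nat.log 2 x + 1) := Nat.lt_pow_succ_log_self (by norm_num) _
    have hn2 : n ≤ Nat.log 2 x := by
      apply Nat.le_log_of_pow_le (by norm_num)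
      omega
    obtain ⟨j, hj⟩ : ∃ j, Nat.log 2 x = j + 1 := ⟨Nat.log 2 x - 1, by omega⟩
    rw [hj] at hl1 hl2 hn2
    rw [Set.mem_iUnion]
    refine ⟨j + 1 + 1 - n, ?_⟩
    have hK : n + (j + 1 + 1 - n) = j + 2 := by omega
    change t.appr (n + (j + 1 + 1 - n)) ∈ ({t ∈ range (2 ^ (n + (j + 1 + 1 - n))) | t % 2 = 1 ∧
      ∃ x, 2 ^ (n + (j + 1 + 1 - n) - 2) ≤ x ∧ x < 2 ^ (n + (j + 1 + 1 - n)) ∧
      (cnt1 M ρ w t x : ℝ) < D * (x : ℝ) ^ (7 / 8 : ℝ)} : Finset ℕ)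
    rw [hK, mem_filter, mem_range]
    refine ⟨PadicInt.appr_lt t _, ?_, x, ?_, ?_, ?_⟩
    · rw [appr_odd t _ (by omega), ht1]
    · rw [pow_succ] at hl1
      rw [Nat.add_sub_cancel]
      omega
    · exact hl2
    · rw [← cz_eq M ρ w t (show x < 2 ^ (j + 2) from hl2)]
      exact hx2

/-- the exceptional set of all progressions modulo `M` -/
theorem dim_all (M : ℕ) (hM : 0 < M) : ∃ s : ℝ, s < 1 ∧ ∀ w : ℕ → ZMod 2,
    dimH {t : ℤ_[2] | t.appr 1 = 1 ∧ ∃ ρ : ℕ,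
      ¬ Filter.Tendsto (fun x : ℕ => (cz M ρ w t x : ℝ) / (x : ℝ) ^ (7 / 8 : ℝ)) Filter.atTop
        Filter.atTop} ≤ ENNReal.ofReal s := by
  classical
  obtain ⟨η, hη, hmain⟩ := prog M hM
  have h0 : 0 < min η 1 := lt_min hη one_pos
  refine ⟨1 - min η 1 / 2, by linarith, fun w => ?_⟩
  have hsub : {t : ℤ_[2] | t.appr 1 = 1 ∧ ∃ ρ : ℕ,
      ¬ Filter.Tendsto (fun x : ℕ => (cz M ρ w t x : ℝ) / (x : ℝ) ^ (7 / 8 : ℝ)) Filter.atTop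
        Filter.atTop} ⊆ ⋃ i : ℕ × ℕ, Bd M i.1 w ((i.2 + 1 : ℕ) : ℝ) := by
    rintro t ⟨h1, ρ, hT⟩
    rw [Set.mem_iUnion]
    by_contra hcon
    push Not at hcon
    apply hT
    refine tendsto_of_all fun D hD => ?_
    obtain ⟨d, rfl⟩ : ∃ d, D = d + 1 := ⟨D - 1, by omega⟩
    by_contra h2
    exact hcon (ρ, d) ⟨h1, h2⟩
  refine (dimH_mono hsub).trans ?_
  rw [dimH_iUnion]
  refine iSup_le fun i => ?_
  obtain ⟨ρ, D⟩ := i
  obtain ⟨C, hC, hb⟩ := hmain ρ w ((D + 1 : ℕ) : ℝ) (by positivity)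
  refine dim_Bd hη ρ w ((D + 1 : ℕ) : ℝ) C hC ?_
  intro K X₀ hX
  refine le_trans (le_of_eq ?_) (hb K X₀ hX)
  rw [← Set.ncard_coe_finset]
  congr 2
  ext t
  simp

end Pool.Agent.H89.MT2
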